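import Pool.Agent.Helper35.CA.Stm

namespace Pool.Agent.Helper22.CA

open Set Module Pool.Agent.Helper35.CA

/-- package MI -/
theorem mi : S_MonoInd := by
  intro s hs g hg N m hm
  have h1 : AlgebraicIndependent QB s := hs.algebraicClosure
  let f : Fin N → (Fin 3 →₀ ℕ) := fun k => Finsupp.equivFunOnFinite.symm (m k)
  have hf : Function.Injective f := fun a b hab =>
    hm (Finsupp.equivFunOnFinite.symm.injective hab)
  have h2 : LinearIndependent QB fun k => MvPolynomial.monomial (f k) (1 : QB) := by
    have h3 := (MvPolynomial.basisMonomials (Fin 3) QB).linearIndependent.comp f hf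
    simpa [Function.comp_def] using h3
  have h4 := h2.map' (MvPolynomial.aeval s : MvPolynomial (Fin 3) QB →ₐ[QB] ℂ).toLinearMap
    (LinearMap.ker_eq_bot.2 h1)
  have h5 := h4.map' (LinearMap.mulLeft QB g)
    (LinearMap.ker_eq_bot.2 (mul_right_injective₀ hg))
  have h6 : (fun k => g * ∏ i, s i ^ m k i) = (LinearMap.mulLeft QB g) ∘
      ((MvPolynomial.aeval s : MvPolynomial (Fin 3) QB →ₐ[QB] ℂ).toLinearMap ∘
        fun k => MvPolynomial.monomial (f k) (1 : QB)) := by
    funext k
    simp only [Function.comp_apply, AlgHom.toLinearMap_apply, LinearMap.mulLeft_apply]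
    rw [MvPolynomial.aeval_monomial, map_one, one_mul, Finsupp.prod_fintype _ _ (by simp)]
    rfl
  rw [h6]
  exact h5

end Pool.Agent.Helper22.CA
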