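import Pool.Agent.Helper22.CA.MI

namespace Pool.Agent.Helper22.CA

open Set Module Pool.Agent.Helper35.CA

section lead

variable {F : Type*} [Field F]

/-- the leading index of a vector with respect to a weight -/
def Lead {N : ℕ} (W : Fin N → ℕ) (c : Fin N → F) (k : Fin N) : Prop :=
  c k ≠ 0 ∧ ∀ j, c j ≠ 0 → W j ≤ W k

theorem exists_lead {N : ℕ} (W : Fin N → ℕ) (c : Fin N → F) (hc : c ≠ 0) :
    ∃ k, Lead W c k := by
  classical
  have hne : (Finset.univ.filter fun k => c k ≠ 0).Nonempty := by
    by_contra h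
    rw [Finset.not_nonempty_iff_eq_empty, Finset.filter_eq_empty_iff] at h
    apply hc
    funext k
    by_contra hk
    exact h (Finset.mem_univ k) hk
  obtain ⟨k, hk, hmax⟩ := Finset.exists_max_image _ W hne
  exact ⟨k, (Finset.mem_filter.1 hk).2, fun j hj => hmax j (Finset.mem_filter.2
    ⟨Finset.mem_univ j, hj⟩)⟩

/-- the polynomial with the coefficients `c` -/
noncomputable def poly {N : ℕ} (m : Fin N → Fin 3 → ℕ) (c : Fin N → F) : MvPolynomial (Fin 3) F :=
  ∑ k, MvPolynomial.monomial (Finsupp.equivFunOnFinite.symm (m k)) (c k)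

/-- `X i ↦ X i * T ^ w i` -/
noncomputable def phiT (w : Fin 3 → ℕ) :
    MvPolynomial (Fin 3) F →ₐ[F] Polynomial (MvPolynomial (Fin 3) F) :=
  MvPolynomial.aeval fun i => Polynomial.C (MvPolynomial.X i) * Polynomial.X ^ w i

theorem phiT_monomial (w : Fin 3 → ℕ) (f : Fin 3 → ℕ) (a : F) :
    phiT w (MvPolynomial.monomial (Finsupp.equivFunOnFinite.symm f) a) =
      Polynomial.C (MvPolynomial.monomial (Finsupp.equivFunOnFinite.symm f) a) *
        Polynomial.X ^ (∑ i, w i * f i) := by
  unfold phiT
  rw [MvPolynomial.aeval_monomial, Finsupp.prod_fintype _ _ (by simp), MvPolynomial.monomial_eq,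
    Finsupp.prod_fintype _ _ (by simp)]
  simp only [Finsupp.equivFunOnFinite_symm_apply_apply, mul_pow, Finset.prod_mul_distrib, map_mul,
    map_prod, map_pow, ← pow_mul, Finset.prod_pow_eq_pow_sum]
  rw [IsScalarTower.algebraMap_apply F (MvPolynomial (Fin 3) F), Polynomial.algebraMap_eq,
    MvPolynomial.algebraMap_eq, mul_assoc]

theorem natDegree_poly {N : ℕ} {m : Fin N → Fin 3 → ℕ} {w : Fin 3 → ℕ} {W : Fin N → ℕ}
    (hW : ∀ k, W k = ∑ i, w i * m k i) (hinj : Function.Injective W) {c : Fin N → F} {k : Fin N}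
    (hk : Lead W c k) :
    phiT w (poly m c) ≠ 0 ∧ (phiT w (poly m c)).natDegree = W k := by
  classical
  have e : phiT w (poly m c) = ∑ k, Polynomial.C (MvPolynomial.monomial
      (Finsupp.equivFunOnFinite.symm (m k)) (c k)) * Polynomial.X ^ (W k) := by
    unfold poly
    rw [map_sum]
    refine Finset.sum_congr rfl fun k _ => ?_
    rw [phiT_monomial, hW]
  have hco : (phiT w (poly m c)).coeff (W k) =
      MvPolynomial.monomial (Finsupp.equivFunOnFinite.symm (m k)) (c k) := by
    rw [e, Polynomial.finsetSum_coeff, Finset.sum_eq_single k]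
    · rw [Polynomial.coeff_C_mul_X_pow, if_pos rfl]
    · intro j _ hj
      rw [Polynomial.coeff_C_mul_X_pow, if_neg (fun h => hj (hinj h).symm)]
    · intro h
      exact absurd (Finset.mem_univ k) h
  have hne : (phiT w (poly m c)).coeff (W k) ≠ 0 := by
    rw [hco]
    intro h
    exact hk.1 (MvPolynomial.monomial_eq_zero.1 h)
  have hle : (phiT w (poly m c)).natDegree ≤ W k := by
    rw [e]
    refine Polynomial.natDegree_sum_le_of_forall_le _ _ fun j _ => ?_
    by_cases hj : c j = 0
    · rw [hj]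
      simp
    · exact (Polynomial.natDegree_C_mul_X_pow_le _ _).trans (hk.2 j hj)
  refine ⟨fun h => hne (by rw [h]; simp), le_antisymm hle (Polynomial.le_natDegree_of_ne_zero hne)⟩

theorem lead_add {N : ℕ} {m : Fin N → Fin 3 → ℕ} {w : Fin 3 → ℕ} {W : Fin N → ℕ}
    (hW : ∀ k, W k = ∑ i, w i * m k i) (hinj : Function.Injective W)
    {u v u' v' : Fin N → F} {k l k' l' : Fin N} (hu : Lead W u k) (hv : Lead W v l)
    (hu' : Lead W u' k') (hv' : Lead W v' l') (h : poly m u * poly m v' = poly m u' * poly m v) :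
    W k + W l' = W k' + W l := by
  have h1 := congrArg (fun p => (phiT w p).natDegree) h
  simp only [map_mul] at h1
  rw [Polynomial.natDegree_mul (natDegree_poly hW hinj hu).1 (natDegree_poly hW hinj hv').1,
    Polynomial.natDegree_mul (natDegree_poly hW hinj hu').1 (natDegree_poly hW hinj hv).1,
    (natDegree_poly hW hinj hu).2, (natDegree_poly hW hinj hv').2, (natDegree_poly hW hinj hu').2,
    (natDegree_poly hW hinj hv).2] at h1
  exact h1

/-- three different leading indices -/
theorem three_leads {N : ℕ} (W : Fin N → ℕ) (v : (Fin 3 → F) →ₗ[F] (Fin N → F))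
    (hv : Function.Injective v) :
    ∃ (lam : Fin 3 → Fin 3 → F) (k : Fin 3 → Fin N), Function.Injective k ∧ (∀ i, lam i ≠ 0) ∧
      ∀ i, Lead W (v (lam i)) (k i) := by
  classical
  let S : Type := {k : Fin N // ∃ a : Fin 3 → F, a ≠ 0 ∧ Lead W (v a) k}
  let r : (Fin 3 → F) →ₗ[F] (S → F) :=
    { toFun := fun a k => v a k.1
      map_add' := fun a b => by funext k; simp
      map_smul' := fun a b => by funext k; simp }
  have hr : Function.Injective r := by
    rw [injective_iff_map_eq_zero]
    intro a ha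
    by_contra hne
    have h1 : v a ≠ 0 := fun h => hne (by rw [← map_zero v] at h; exact hv h)
    obtain ⟨k, hk⟩ := exists_lead W (v a) h1
    have h2 := congrFun ha (⟨k, a, hne, hk⟩ : S)
    exact hk.1 h2
  have h3 := LinearMap.finrank_le_finrank_of_injective hr
  rw [Module.finrank_fintype_fun_eq_card, Module.finrank_fintype_fun_eq_card, Fintype.card_fin] at h3
  obtain ⟨em⟩ := Function.Embedding.nonempty_of_card_le (α := Fin 3) (β := S) (by simpa using h3)
  choose a ha0 ha1 using fun i => (em i).2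
  exact ⟨a, fun i => (em i).1, fun i j hij => em.injective (Subtype.ext hij), ha0, ha1⟩

end lead

/-- package MO -/
theorem mo : S_Mono := by
  intro s hs g hg N m w W hW hinj hno x y hx hy
  by_contra hcon
  push Not at hcon
  have hs' : AlgebraicIndependent QB s := hs.algebraicClosure
  have hm : Function.Injective m := fun k l h => hinj (by rw [hW, hW, h])
  have hli := mi s hs g hg N m hm
  have hx0 : x 0 ≠ 0 := hx.ne_zero 0
  -- coordinates
  have h0 := fun j => (Submodule.mem_span_range_iff_exists_fun QB).1 (hcon 0 j)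
  have h1 := fun j => (Submodule.mem_span_range_iff_exists_fun QB).1 (hcon 1 j)
  choose a ha using h0
  choose b hb using h1
  -- the evaluation
  obtain ⟨E, hE⟩ : ∃ E : (Fin N → QB) →ₗ[QB] ℂ, ∀ c, E c = ∑ k, c k • (g * ∏ i, s i ^ m k i) :=
    ⟨Fintype.linearCombination QB (fun k => g * ∏ i, s i ^ m k i), fun c => rfl⟩
  have hEinj : ∀ c, E c = 0 → c = 0 := by
    intro c hc
    rw [hE] at hc
    funext k
    exact Fintype.linearIndependent_iff.1 hli c hc k
  have hEpoly : ∀ c, E c = g * MvPolynomial.aeval s (poly m c) := by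
    intro c
    rw [hE]
    unfold poly
    rw [map_sum, Finset.mul_sum]
    refine Finset.sum_congr rfl fun k _ => ?_
    rw [MvPolynomial.aeval_monomial, Finsupp.prod_fintype _ _ (by simp), Algebra.smul_def]
    simp only [Finsupp.equivFunOnFinite_symm_apply_apply]
    ring
  have ha' : ∀ j, E (a j) = x 0 * y j := fun j => by rw [hE]; exact ha j
  have hb' : ∀ j, E (b j) = x 1 * y j := fun j => by rw [hE]; exact hb j
  let v : (Fin 3 → QB) →ₗ[QB] (Fin N → QB) := Fintype.linearCombination QB a
  let u : (Fin 3 → QB) →ₗ[QB] (Fin N → QB) := Fintype.linearCombination QB b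
  have hEv : ∀ l : Fin 3 → QB, E (v l) = x 0 * ∑ j, l j • y j := by
    intro l
    simp only [v, Fintype.linearCombination_apply, map_sum, map_smul, ha', Finset.mul_sum,
      mul_smul_comm]
  have hEu : ∀ l : Fin 3 → QB, E (u l) = x 1 * ∑ j, l j • y j := by
    intro l
    simp only [u, Fintype.linearCombination_apply, map_sum, map_smul, hb', Finset.mul_sum,
      mul_smul_comm]
  have hy0 : ∀ l : Fin 3 → QB, l ≠ 0 → ∑ j, l j • y j ≠ 0 := by
    intro l hl h
    exact hl (funext fun k => Fintype.linearIndependent_iff.1 hy l h k)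
  have hv : Function.Injective v := by
    rw [injective_iff_map_eq_zero]
    intro l hl
    by_contra hne
    have h2 := hEv l
    rw [hl, map_zero] at h2
    exact mul_ne_zero hx0 (hy0 l hne) h2.symm
  -- the constant
  obtain ⟨l0, hl0⟩ : ∃ l0 : Fin 3 → QB, l0 ≠ 0 := ⟨fun _ => 1, fun h => by
    have := congrFun h 0
    simp at this⟩
  obtain ⟨k0, hk0⟩ := exists_lead W (v l0) (fun h => hl0 (by rw [← map_zero v] at h; exact hv h))
  obtain ⟨c, hc⟩ : ∃ c : QB, c = u l0 k0 / v l0 k0 := ⟨_, rfl⟩
  let u' : (Fin 3 → QB) →ₗ[QB] (Fin N → QB) := u - c • v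
  have hu'k : u' l0 k0 = 0 := by
    simp only [u', LinearMap.sub_apply, LinearMap.smul_apply, Pi.sub_apply, Pi.smul_apply,
      smul_eq_mul]
    rw [hc, div_mul_cancel₀ _ hk0.1, sub_self]
  have hEu' : ∀ l : Fin 3 → QB, E (u' l) = (x 1 - c • x 0) * ∑ j, l j • y j := by
    intro l
    simp only [u', LinearMap.sub_apply, LinearMap.smul_apply, map_sub, map_smul, hEu, hEv]
    rw [sub_mul, smul_mul_assoc]
  have hxc : x 1 - c • x 0 ≠ 0 := by
    intro h
    have h2 := Fintype.linearIndependent_iff.1 hx ![-c, 1] (by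
      rw [Fin.sum_univ_two]
      simp only [Matrix.cons_val_zero, Matrix.cons_val_one, one_smul, neg_smul]
      rw [← h]
      ring) 1
    simp at h2
  have hu'0 : ∀ l : Fin 3 → QB, l ≠ 0 → u' l ≠ 0 := by
    intro l hl h
    have h2 := hEu' l
    rw [h, map_zero] at h2
    exact mul_ne_zero hxc (hy0 l hl) h2.symm
  -- the relation
  have hrel : ∀ l l' : Fin 3 → QB,
      poly m (u' l) * poly m (v l') = poly m (u' l') * poly m (v l) := by
    intro l l'
    apply hs'
    change MvPolynomial.aeval s _ = MvPolynomial.aeval s _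
    rw [map_mul, map_mul]
    have h2 : E (u' l) * E (v l') = E (u' l') * E (v l) := by
      rw [hEu', hEv, hEu', hEv]
      ring
    rw [hEpoly, hEpoly, hEpoly, hEpoly] at h2
    have h3 : (g * g) * (MvPolynomial.aeval s (poly m (u' l)) *
        MvPolynomial.aeval s (poly m (v l'))) = (g * g) *
        (MvPolynomial.aeval s (poly m (u' l')) * MvPolynomial.aeval s (poly m (v l))) := by
      linear_combination h2
    exact mul_left_cancel₀ (mul_ne_zero hg hg) h3
  obtain ⟨lam, k, hk, hlam, hlead⟩ := three_leads W v hv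
  choose k' hk' using fun i => exists_lead W (u' (lam i)) (hu'0 _ (hlam i))
  have h4 : k' 0 = k 0 := by
    refine hno k k' hk fun i j => ?_
    exact lead_add hW hinj (hk' i) (hlead i) (hk' j) (hlead j) (hrel (lam i) (lam j))
  obtain ⟨k1, hk1⟩ := exists_lead W (u' l0) (hu'0 _ hl0)
  have h5 := lead_add hW hinj (hk' 0) (hlead 0) hk1 hk0 (hrel (lam 0) l0)
  rw [h4] at h5
  have h6 : W k0 = W k1 := by omega
  have h7 : k0 = k1 := hinj h6
  rw [← h7] at hk1
  exact hk1.1 hu'k

end Pool.Agent.Helper22.CA
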