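import Pool.Agent.Helper35.CA.Stm

namespace Pool.Agent.Helper22.CA

open Set Module

theorem padic_one {p : ℕ} [Fact p.Prime] {q : ℚ} (h1 : q.num.natAbs < p) (h2 : q.den < p)
    (h0 : q ≠ 0) : Rat.AbsoluteValue.padic p q = 1 := by
  rw [Rat.AbsoluteValue.padic_eq_padicNorm, ← Rat.num_div_den q, padicNorm.div]
  have e1 : padicNorm p (q.num : ℚ) = 1 := by
    rw [padicNorm.int_eq_one_iff]
    intro h
    have h3 : p ∣ q.num.natAbs := Int.natCast_dvd.1 h
    have h4 := Nat.le_of_dvd (Int.natAbs_pos.2 (Rat.num_ne_zero.2 h0)) h3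
    omega
  have e2 : padicNorm p (q.den : ℚ) = 1 := by
    rw [padicNorm.nat_eq_one_iff]
    intro h
    have h4 := Nat.le_of_dvd q.den_pos h
    omega
  rw [e1, e2]
  norm_num

theorem exists_near (x : ℝ) (hx : 0 < x) (ε : ℝ) (hε : 0 < ε) (B : ℕ) :
    ∃ (p : ℕ) (a : ℕ), p.Prime ∧ B < p ∧ 0 < a ∧ ¬ p ∣ a ∧ |(a : ℝ) / p - x| < ε := by
  obtain ⟨N, hN⟩ := exists_nat_gt (max (3 / ε) (3 / x))
  obtain ⟨p, hp1, hp⟩ := Nat.exists_infinite_primes (max (B + 1) (max N 3))
  have hB : B < p := by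
    have := le_max_left (B + 1) (max N 3)
    omega
  have hNp : (N : ℝ) ≤ p := by
    have : N ≤ p := le_trans (le_trans (le_max_left N 3) (le_max_right (B + 1) (max N 3))) hp1
    exact_mod_cast this
  have h3p : 3 ≤ p := le_trans (le_trans (le_max_right N 3) (le_max_right (B + 1) (max N 3))) hp1
  have hp0 : (0 : ℝ) < p := by exact_mod_cast hp.pos
  have h1 : 3 < ε * p := by
    have : 3 / ε < p := lt_of_le_of_lt (le_max_left _ _) (lt_of_lt_of_le hN hNp)
    rw [div_lt_iff₀ hε] at this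
    linarith
  -- a is the floor of x * p, plus one or two
  obtain ⟨m, hm⟩ : ∃ m : ℕ, m = ⌊x * p⌋₊ := ⟨_, rfl⟩
  have hm1 : (m : ℝ) ≤ x * p := by rw [hm]; exact Nat.floor_le (by positivity)
  have hm2 : x * p < m + 1 := by rw [hm]; exact Nat.lt_floor_add_one _
  have key : ∀ a : ℕ, (m : ℝ) + 1 ≤ a → (a : ℝ) ≤ m + 2 → |(a : ℝ) / p - x| < ε := by
    intro a ha1 ha2
    have e : (a : ℝ) / p - x = (a - x * p) / p := by field_simp
    rw [e, abs_div, abs_of_pos hp0, div_lt_iff₀ hp0, abs_lt]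
    constructor <;> linarith
  by_cases hd : p ∣ m + 1
  · refine ⟨p, m + 2, hp, hB, by omega, ?_, key _ (by push_cast; linarith) (by push_cast; linarith)⟩
    intro hd2
    have h5 : p ∣ (m + 2) - (m + 1) := Nat.dvd_sub hd2 hd
    have h6 : (m + 2) - (m + 1) = 1 := by omega
    rw [h6] at h5
    exact hp.one_lt.ne' (Nat.dvd_one.1 h5)
  · exact ⟨p, m + 1, hp, hB, by omega, hd, key _ (by push_cast; linarith) (by push_cast; linarith)⟩

theorem mult_ind (ε : ℝ) (hε : 0 < ε) : ∀ (n : ℕ) (x : Fin n → ℝ), (∀ k, 0 < x k) →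
    ∃ q : Fin n → ℚ, (∀ k, 0 < q k) ∧ (∀ k, |(q k : ℝ) - x k| < ε) ∧
      ∀ g : Fin n → ℤ, ∏ k, q k ^ g k = 1 → ∀ k, g k = 0 := by
  intro n
  induction n with
  | zero =>
    intro x _
    exact ⟨fun k => k.elim0, fun k => k.elim0, fun k => k.elim0, fun g _ k => k.elim0⟩
  | succ n ih =>
    intro x hx
    obtain ⟨q, hq0, hq1, hq2⟩ := ih (fun k => x k.castSucc) (fun k => hx _)
    obtain ⟨B, hB⟩ : ∃ B : ℕ, ∀ k, (q k).num.natAbs ≤ B ∧ (q k).den ≤ B := by
      refine ⟨∑ k, ((q k).num.natAbs + (q k).den), fun k => ?_⟩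
      have := Finset.single_le_sum (f := fun k => (q k).num.natAbs + (q k).den)
        (fun i _ => Nat.zero_le _) (Finset.mem_univ k)
      omega
    obtain ⟨p, a, hp, hBp, ha0, hpa, hnear⟩ := exists_near (x (Fin.last n)) (hx _) ε hε B
    have : Fact p.Prime := ⟨hp⟩
    have ha0' : (0 : ℚ) < a := by exact_mod_cast ha0
    have hp0' : (0 : ℚ) < p := by exact_mod_cast hp.pos
    refine ⟨Fin.snoc q ((a : ℚ) / p), ?_, ?_, ?_⟩
    · intro k
      refine Fin.lastCases ?_ (fun j => ?_) k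
      · rw [Fin.snoc_last]; positivity
      · rw [Fin.snoc_castSucc]; exact hq0 j
    · intro k
      refine Fin.lastCases ?_ (fun j => ?_) k
      · rw [Fin.snoc_last]; push_cast; exact hnear
      · rw [Fin.snoc_castSucc]; exact hq1 j
    · intro g hg
      rw [Fin.prod_univ_castSucc] at hg
      simp only [Fin.snoc_castSucc, Fin.snoc_last] at hg
      have h1 := congrArg (Rat.AbsoluteValue.padic p) hg
      rw [map_mul, map_prod, map_one] at h1
      simp only [map_zpow₀] at h1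
      have h2 : ∀ k, Rat.AbsoluteValue.padic p (q k) = 1 := fun k =>
        padic_one (lt_of_le_of_lt (hB k).1 hBp) (lt_of_le_of_lt (hB k).2 hBp) (hq0 k).ne'
      simp only [h2, one_zpow, Finset.prod_const_one, one_mul] at h1
      have h3 : Rat.AbsoluteValue.padic p ((a : ℚ) / p) = p := by
        rw [Rat.AbsoluteValue.padic_eq_padicNorm, padicNorm.div, padicNorm.padicNorm_p hp.one_lt]
        have : padicNorm p (a : ℚ) = 1 := by
          rw [padicNorm.nat_eq_one_iff]; exact hpa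
        rw [this]
        simp
      rw [h3] at h1
      have h4 : g (Fin.last n) = 0 := by
        have hp1 : (1 : ℝ) < (p : ℝ) := by exact_mod_cast hp.one_lt
        by_contra hne
        rcases lt_or_gt_of_ne hne with h | h
        · have := zpow_lt_one_of_neg₀ hp1 h

          linarith
        · have := one_lt_zpow₀ hp1 h

          linarith
      rw [h4, zpow_zero, mul_one] at hg
      have h5 := hq2 _ hg
      intro k
      refine Fin.lastCases h4 (fun j => h5 j) k

theorem rat_log (n : ℕ) (x : Fin n → ℝ) (hx : ∀ k, 0 < x k) (ε : ℝ) (hε : 0 < ε) :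
    ∃ q : Fin n → ℚ, (∀ k, 0 < q k) ∧ (∀ k, |(q k : ℝ) - x k| < ε) ∧
      LinearIndependent ℚ fun k => Real.log (q k) := by
  obtain ⟨q, h0, h1, h2⟩ := mult_ind ε hε n x hx
  refine ⟨q, h0, h1, ?_⟩
  rw [← LinearIndependent.iff_fractionRing (R := ℤ) (K := ℚ), Fintype.linearIndependent_iff]
  intro g hg
  refine h2 g ?_
  have h3 : Real.log (∏ k, (q k : ℝ) ^ g k) = 0 := by
    rw [Real.log_prod]
    · rw [← hg]
      refine Finset.sum_congr rfl fun k _ => ?_
      rw [Real.log_zpow, zsmul_eq_mul]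
    · intro k _
      have : (0 : ℝ) < q k := by exact_mod_cast h0 k
      positivity
  have h4 : (0 : ℝ) < ∏ k, (q k : ℝ) ^ g k := Finset.prod_pos fun k _ => by
    have : (0 : ℝ) < q k := by exact_mod_cast h0 k
    positivity
  have h5 : ∏ k, (q k : ℝ) ^ g k = 1 := Real.eq_one_of_pos_of_log_eq_zero h4 h3
  exact_mod_cast h5

/-- package RA -/
theorem ra : Pool.Agent.Helper35.CA.S_Rat := fun n x hx ε hε => rat_log n x hx ε hε

end Pool.Agent.Helper22.CA
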